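import Mathlib
import Pool.Agent.Lib.Pe1005d.Vec
import Pool.Agent.Lib.Pe1005d.Data

set_option autoImplicit false

open Set Matroid Module

namespace Pool.Agent.Results.MP_e1005d_co.NotSupersolvable

/-- The rank of a set in a matroid, as a natural number (all matroids below are finite). -/
noncomputable def rk {α : Type} (M : Matroid α) (X : Set α) : ℕ := (M.eRk X).toNat

open Classical in
/-- The characteristic polynomial `χ(M; λ) = ∑_{X ⊆ E} (-1)^{|X|} λ^{r(E) - r(X)}` of a matroid
on a finite type. -/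
noncomputable def charPoly {α : Type} [Fintype α] (M : Matroid α) : Polynomial ℤ :=
  ∑ X ∈ (Finset.univ : Finset (Finset α)).filter (fun X : Finset α => (X : Set α) ⊆ M.E),
    (-1) ^ X.card * Polynomial.X ^ (rk M M.E - rk M (X : Set α))

/-- `M` is representable over the field with `q` elements. -/
def IsRepresentable {α : Type} (q : ℕ) (M : Matroid α) : Prop :=
  ∃ (F : Type) (_ : Field F) (_ : Fintype F), Fintype.card F = q ∧
    ∃ (n : ℕ) (φ : α → (Fin n → F)), ∀ I ⊆ M.E, (M.Indep I ↔ LinearIndepOn F φ I)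

/-- A matroid is simple (a geometry) if it has no loops and no parallel pairs: any at most two
elements of the ground set form an independent set. -/
def IsSimple {α : Type} (M : Matroid α) : Prop :=
  ∀ e ∈ M.E, ∀ f ∈ M.E, M.Indep {e, f}

/-- The critical exponent `c(M;q)`, the least `c ≥ 0` with `χ(M; q^c) > 0`, is at most `k`. -/
def CritExpLE {α : Type} [Fintype α] (q k : ℕ) (M : Matroid α) : Prop :=
  ∃ c : ℕ, c ≤ k ∧ 0 < (charPoly M).eval ((q : ℤ) ^ c)

/-- Tangential `k`-blocks over `GF(q)`: simple, `GF(q)`-representable, of critical exponent larger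
than `k`, all of whose proper loopless minors have critical exponent at most `k`. -/
def IsTangentialBlock {α : Type} [Fintype α] (q k : ℕ) (M : Matroid α) : Prop :=
  IsRepresentable q M ∧ IsSimple M ∧ ¬ CritExpLE q k M ∧
    ∀ N : Matroid α, N <m M → N.Loopless → CritExpLE q k N

/-- Modular flats. -/
def IsModularFlat {α : Type} (M : Matroid α) (X : Set α) : Prop :=
  M.IsFlat X ∧ ∀ Y : Set α, M.IsFlat Y →
    rk M X + rk M Y = rk M (M.closure (X ∪ Y)) + rk M (X ∩ Y)

/-- `M` has a modular copoint: a modular flat of rank `r(M) - 1`. -/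
def HasModularCopoint {α : Type} (M : Matroid α) : Prop :=
  ∃ H : Set α, IsModularFlat M H ∧ rk M H + 1 = rk M M.E

/-- `M` is supersolvable: there is a chain `X_0 ⊂ X_1 ⊂ ⋯ ⊂ X_{r(M)}` of modular flats
(such a chain of flats is automatically maximal). -/
def IsSupersolvable {α : Type} (M : Matroid α) : Prop :=
  ∃ X : Fin (rk M M.E + 1) → Set α, StrictMono X ∧ ∀ i, IsModularFlat M (X i)

section critical

variable {α F V : Type} [Field F] [AddCommGroup V] [Module F V] [Fintype α]

open Pool.Agent.Lib.Pe1005d (vecMatroid vec_rk rk_contract)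

lemma rk_vec (φ : α → V) (X : Set α) :
    rk (vecMatroid F φ) X = Module.finrank F (Submodule.span F (φ '' X)) :=
  vec_rk φ X

/-- number of functionals vanishing on a subset of the ground set -/
lemma card_vanish [Fintype F] [FiniteDimensional F V] (φ : α → V) (S : Set α) :
    Nat.card {f : Module.Dual F V // ∀ s ∈ S, f (φ s) = 0} =
      Fintype.card F ^ (Module.finrank F V - rk (vecMatroid F φ) S) := by
  have h1 : Nat.card {f : Module.Dual F V // ∀ s ∈ S, f (φ s) = 0} =
      Nat.card ((Submodule.span F (φ '' S)).dualAnnihilator) := by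
    apply Nat.card_congr
    apply Equiv.subtypeEquivRight
    intro f
    rw [Submodule.mem_dualAnnihilator]
    constructor
    · intro h w hw
      induction hw using Submodule.span_induction with
      | mem x hx =>
        obtain ⟨s, hs, rfl⟩ := hx
        exact h s hs
      | zero => simp
      | add x y _ _ hx hy => simp [hx, hy]
      | smul a x _ hx => simp [hx]
    · intro h s hs
      exact h _ (Submodule.subset_span ⟨s, hs, rfl⟩)
  rw [h1, Module.natCard_eq_pow_finrank (K := F), rk_vec, Nat.card_eq_fintype_card]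
  congr 1
  have := Subspace.finrank_add_finrank_dualAnnihilator_eq (K := F) (Submodule.span F (φ '' S))
  omega

open Classical in
/-- indicator -/
noncomputable def ind (p : Prop) : ℤ := if p then 1 else 0

lemma ind_pos {p : Prop} (h : p) : ind p = 1 := by simp [ind, h]
lemma ind_neg {p : Prop} (h : ¬ p) : ind p = 0 := by simp [ind, h]

lemma card_eq_sum_ind {κ : Type} [Fintype κ] (p : κ → Prop) :
    (Nat.card {f : κ // p f} : ℤ) = ∑ f : κ, ind (p f) := by
  classical
  rw [Nat.card_eq_fintype_card, Fintype.card_subtype, Finset.card_filter]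
  push_cast
  apply Finset.sum_congr rfl
  intro f _
  by_cases h : p f
  · simp [h, ind]
  · simp [h, ind]

/-- inclusion-exclusion -/
lemma incl_excl {ι κ : Type} [Finite κ] (E : Finset ι) (Z : κ → Prop) (B : ι → κ → Prop) :
    (Nat.card {f : κ // Z f ∧ ∀ e ∈ E, ¬ B e f} : ℤ) =
      ∑ X ∈ E.powerset, (-1) ^ X.card *
        (Nat.card {f : κ // Z f ∧ ∀ e ∈ X, B e f} : ℤ) := by
  classical
  have : Fintype κ := Fintype.ofFinite κ
  have h1 : ∀ f : κ, ind (Z f ∧ ∀ e ∈ E, ¬ B e f) =
      ∑ X ∈ E.powerset, (-1) ^ X.card * ind (Z f ∧ ∀ e ∈ X, B e f) := by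
    intro f
    have h2 : ∏ e ∈ E, ((- ind (B e f)) + 1) = ind (∀ e ∈ E, ¬ B e f) := by
      by_cases h : ∀ e ∈ E, ¬ B e f
      · rw [ind_pos h]
        apply Finset.prod_eq_one
        intro e he
        rw [ind_neg (h e he)]; simp
      · rw [ind_neg h]
        push Not at h
        obtain ⟨e, he, hb⟩ := h
        apply Finset.prod_eq_zero he
        rw [ind_pos hb]; simp
    rw [Finset.prod_add] at h2
    have h3 : ∀ X ∈ E.powerset, (∏ e ∈ X, (- ind (B e f))) * ∏ e ∈ E \ X, (1:ℤ) =
        (-1) ^ X.card * ind (∀ e ∈ X, B e f) := by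
      intro X _
      rw [Finset.prod_const_one, mul_one]
      by_cases h : ∀ e ∈ X, B e f
      · rw [ind_pos h, mul_one, ← Finset.prod_const]
        apply Finset.prod_congr rfl
        intro e he
        rw [ind_pos (h e he)]
      · rw [ind_neg h, mul_zero]
        push Not at h
        obtain ⟨e, he, hb⟩ := h
        apply Finset.prod_eq_zero he
        rw [ind_neg hb]; simp
    rw [Finset.sum_congr rfl h3] at h2
    by_cases hZ : Z f
    · simp only [hZ, true_and]
      exact h2.symm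
    · rw [ind_neg (fun h => hZ h.1)]
      symm
      apply Finset.sum_eq_zero
      intro X _
      rw [ind_neg (fun h => hZ h.1), mul_zero]
  rw [card_eq_sum_ind, Finset.sum_congr rfl (fun f _ => h1 f), Finset.sum_comm]
  apply Finset.sum_congr rfl
  intro X _
  rw [card_eq_sum_ind, Finset.mul_sum]

/-- The critical theorem for minors of a vector matroid. -/
lemma critical_minor [Fintype F] [FiniteDimensional F V] (φ : α → V) (C D : Set α) :
    (Nat.card {f : Module.Dual F V // (∀ c ∈ C, f (φ c) = 0) ∧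
        ∀ e ∈ ((vecMatroid F φ) ／ C ＼ D).E, ¬ f (φ e) = 0} : ℤ) =
      (Fintype.card F : ℤ) ^ (Module.finrank F V -
          rk (vecMatroid F φ) (((vecMatroid F φ) ／ C ＼ D).E ∪ C)) *
        (charPoly ((vecMatroid F φ) ／ C ＼ D)).eval (Fintype.card F : ℤ) := by
  classical
  have hfin : Finite (Module.Dual F V) := Module.finite_of_finite F
  set M := vecMatroid F φ with hM
  set N := M ／ C ＼ D with hN
  have hNE : N.E = (Set.univ \ C) \ D := by
    rw [hN, Matroid.delete_ground, Matroid.contract_ground, Pool.Agent.Lib.Pe1005d.vecMatroid_E]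
  have hrkle : ∀ X : Set α, rk M X ≤ Module.finrank F V := by
    intro X; rw [hM, rk_vec]; exact Submodule.finrank_le _
  have hmono : ∀ X Y : Set α, X ⊆ Y → rk M X ≤ rk M Y := by
    intro X Y h
    rw [hM, rk_vec, rk_vec]
    exact Submodule.finrank_mono (Submodule.span_mono (Set.image_mono h))
  have hrkN : ∀ X : Set α, X ⊆ N.E → rk N X + rk M C = rk M (X ∪ C) := by
    intro X hX
    have hX1 : X ⊆ M.E \ C := by
      intro x hx
      have := hX hx
      rw [hNE] at this
      exact ⟨Set.mem_univ _, this.1.2⟩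
    have h1 := rk_contract M C X (Set.subset_univ _) hX1
    have h2 : rk N X = Pool.Agent.Lib.Pe1005d.rk (M ／ C) X := by
      rw [rk, Pool.Agent.Lib.Pe1005d.rk, hN, Matroid.delete, Matroid.restrict_eRk_eq]
      intro x hx
      have := hX hx
      rw [hNE] at this
      exact ⟨⟨Set.mem_univ _, this.1.2⟩, this.2⟩
    rw [h2]
    exact h1
  have hconv : Nat.card {f : Module.Dual F V // (∀ c ∈ C, f (φ c) = 0) ∧
        ∀ e ∈ N.E, ¬ f (φ e) = 0} = Nat.card {f : Module.Dual F V // (∀ c ∈ C, f (φ c) = 0) ∧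
        ∀ e ∈ N.E.toFinset, ¬ f (φ e) = 0} := by
    apply Nat.card_congr
    apply Equiv.subtypeEquivRight
    intro f
    simp
  rw [hconv, incl_excl (κ := Module.Dual F V) (N.E.toFinset) (fun f => ∀ c ∈ C, f (φ c) = 0)
    (fun e f => f (φ e) = 0)]
  rw [charPoly, Polynomial.eval_finsetSum, Finset.mul_sum]
  have hfe : (N.E.toFinset).powerset =
      (Finset.univ : Finset (Finset α)).filter (fun X : Finset α => (X : Set α) ⊆ N.E) := by
    ext X
    simp only [Finset.mem_powerset, Finset.mem_filter, Finset.mem_univ, true_and]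
    constructor
    · intro h x hx
      simpa using h hx
    · intro h x hx
      simpa using h hx
  rw [hfe]
  apply Finset.sum_congr (by congr)
  intro X hX
  have hXE : (X : Set α) ⊆ N.E := (Finset.mem_filter.1 hX).2
  have hcard : Nat.card {f : Module.Dual F V // (∀ c ∈ C, f (φ c) = 0) ∧ ∀ e ∈ X, f (φ e) = 0} =
      Fintype.card F ^ (Module.finrank F V - rk M ((X : Set α) ∪ C)) := by
    rw [← card_vanish φ ((X : Set α) ∪ C)]
    apply Nat.card_congr
    apply Equiv.subtypeEquivRight
    intro f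
    simp only [Set.mem_union, Finset.mem_coe]
    constructor
    · rintro ⟨h1, h2⟩ s (hs | hs)
      · exact h2 s hs
      · exact h1 s hs
    · intro h
      exact ⟨fun c hc => h c (Or.inr hc), fun e he => h e (Or.inl he)⟩
  rw [hcard]
  have e1 := hrkN _ hXE
  have e2 := hrkN N.E (le_refl _)
  have e3 := hrkle (N.E ∪ C)
  have e4 := hmono ((X : Set α) ∪ C) (N.E ∪ C) (Set.union_subset_union_left _ hXE)
  have e5 : Module.finrank F V - rk M ((X : Set α) ∪ C) =
      (Module.finrank F V - rk M (N.E ∪ C)) + (rk N N.E - rk N (X : Set α)) := by omega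
  rw [e5]
  simp only [Polynomial.eval_mul, Polynomial.eval_pow, Polynomial.eval_neg, Polynomial.eval_one,
    Polynomial.eval_X, pow_add]
  push_cast
  ring

end critical

section example_

open Pool.Agent.Lib.Pe1005d (vecMatroid vec_rk rk_contract vec_mem_closure vec_isFlat_iff
  vecMatroid_E vecMatroid_indep exists_basis dot Tf Gf P chkT_all chkG_all chkS_all chkA_all
  P_zero_or_one no_functional P_ne_zero chkT chkG chkS chkA idx)

instance : Fact (Nat.Prime 7) := ⟨by norm_num⟩

/-- The matroid: nineteen vectors of `GF(7)^4`. -/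
noncomputable def M₀ : Matroid (Fin 19) := vecMatroid (ZMod 7) P

/-- the functional given by a list -/
def dotL (l : List ℕ) : Module.Dual (ZMod 7) (Fin 4 → ZMod 7) where
  toFun v := dot l v
  map_add' v w := by simp only [dot, Pi.add_apply]; ring
  map_smul' a v := by simp only [dot, Pi.smul_apply, smul_eq_mul, RingHom.id_apply]; ring

lemma dotL_apply (l : List ℕ) (v : Fin 4 → ZMod 7) : dotL l v = dot l v := rfl

lemma T_left (i j : Fin 19) : dotL (Tf i j) (P i) = 0 := by
  have h := List.all_eq_true.1 (List.all_eq_true.1 chkT_all i (List.mem_finRange i)) j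
    (List.mem_finRange j)
  simp only [chkT, Bool.and_eq_true, decide_eq_true_eq] at h
  exact h.1.1

lemma T_right (i j : Fin 19) : dotL (Tf i j) (P j) = 0 := by
  have h := List.all_eq_true.1 (List.all_eq_true.1 chkT_all i (List.mem_finRange i)) j
    (List.mem_finRange j)
  simp only [chkT, Bool.and_eq_true, decide_eq_true_eq] at h
  exact h.1.2

lemma T_span (i j x : Fin 19) (hx : dotL (Tf i j) (P x) = 0) :
    P x ∈ Submodule.span (ZMod 7) {P i, P j} := by
  have h := List.all_eq_true.1 (List.all_eq_true.1 chkT_all i (List.mem_finRange i)) j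
    (List.mem_finRange j)
  simp only [chkT, Bool.and_eq_true, decide_eq_true_eq] at h
  have h2 := List.all_eq_true.1 h.2 x (List.mem_finRange x)
  simp only [Bool.or_eq_true, decide_eq_true_eq, List.any_eq_true, List.all_eq_true] at h2
  rcases h2 with h2 | ⟨a, _, b, _, hk⟩
  · exact absurd hx h2
  · rw [Submodule.mem_span_pair]
    refine ⟨(a.val : ZMod 7), (b.val : ZMod 7), ?_⟩
    ext k
    have := hk k (List.mem_finRange k)
    simp only [Pi.add_apply, Pi.smul_apply, smul_eq_mul]
    exact this.symm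

lemma S_ne {i j : Fin 19} (h : i ≠ j) : dotL (Tf i i) (P j) ≠ 0 := by
  have h1 := List.all_eq_true.1 (List.all_eq_true.1 chkS_all i (List.mem_finRange i)) j
    (List.mem_finRange j)
  simp only [chkS, Bool.or_eq_true, decide_eq_true_eq] at h1
  rcases h1 with h1 | h1
  · exact absurd h1 h
  · exact h1

lemma P_ne (i : Fin 19) : P i ≠ 0 := by
  have h := List.all_eq_true.1 P_ne_zero i (List.mem_finRange i)
  simpa using h

lemma P_01 (i : Fin 19) : P i 0 = 0 ∨ P i 0 = 1 := by
  have h := List.all_eq_true.1 P_zero_or_one i (List.mem_finRange i)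
  simpa using h

lemma A_diff {i j : Fin 19} (hij : i ≠ j) (hi : P i 0 ≠ 0) (hj : P j 0 ≠ 0) :
    ∃ h : Fin 19, P h 0 = 0 ∧ ∃ c : ZMod 7, P i - P j = c • P h := by
  have h1 := List.all_eq_true.1 (List.all_eq_true.1 chkA_all i (List.mem_finRange i)) j
    (List.mem_finRange j)
  simp only [chkA, Bool.or_eq_true, decide_eq_true_eq, List.any_eq_true, Bool.and_eq_true,
    List.all_eq_true] at h1
  rcases h1 with ((h1 | h1) | h1) | ⟨h, _, hh, c, _, hk⟩
  · exact absurd h1 hij
  · exact absurd h1 hi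
  · exact absurd h1 hj
  · refine ⟨h, hh, (c.val : ZMod 7), ?_⟩
    ext k
    exact hk k (List.mem_finRange k)

lemma G_spec {i j : Fin 19} (hij : i ≠ j) : ∃ (g : Module.Dual (ZMod 7) (Fin 4 → ZMod 7))
    (a b c : Fin 19), g (P a) = 0 ∧ g (P b) = 0 ∧ g (P c) = 0 ∧ a ≠ b ∧
      dotL (Tf a b) (P c) ≠ 0 ∧ ∀ x, dotL (Tf i j) (P x) = 0 → g (P x) ≠ 0 := by
  have h1 := List.all_eq_true.1 (List.all_eq_true.1 chkG_all i (List.mem_finRange i)) j
    (List.mem_finRange j)
  simp only [chkG, Bool.or_eq_true, Bool.and_eq_true, decide_eq_true_eq, List.all_eq_true] at h1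
  rcases h1 with h1 | ⟨⟨⟨⟨⟨h1, h2⟩, h3⟩, h4⟩, h5⟩, h6⟩
  · exact absurd h1 hij
  · refine ⟨dotL (Gf i j), idx (Gf i j) 4, idx (Gf i j) 5, idx (Gf i j) 6, h1, h2, h3, h4, h5, ?_⟩
    intro x hx
    rcases h6 x (List.mem_finRange x) with h | h
    · exact absurd hx h
    · exact h

lemma no_fun (f : Module.Dual (ZMod 7) (Fin 4 → ZMod 7)) : ∃ x, f (P x) = 0 := by
  have hf : ∀ v, f v = dot [(f (Pi.single 0 1)).val, (f (Pi.single 1 1)).val,
      (f (Pi.single 2 1)).val, (f (Pi.single 3 1)).val] v := by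
    intro v
    have hv : v = v 0 • Pi.single 0 1 + v 1 • Pi.single 1 1 + v 2 • Pi.single 2 1 +
        v 3 • (Pi.single 3 1 : Fin 4 → ZMod 7) := by
      ext k
      fin_cases k <;> simp
    conv_lhs => rw [hv]
    simp only [map_add, map_smul, smul_eq_mul, dot, List.getD_cons_zero, List.getD_cons_succ,
      ZMod.natCast_val, ZMod.cast_id', id_eq]
    ring
  have h := no_functional
  simp only [List.all_eq_true, List.any_eq_true, decide_eq_true_eq] at h
  obtain ⟨x, _, hx⟩ := h ⟨(f (Pi.single 0 1)).val, ZMod.val_lt _⟩ (List.mem_finRange _)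
    ⟨(f (Pi.single 1 1)).val, ZMod.val_lt _⟩ (List.mem_finRange _)
    ⟨(f (Pi.single 2 1)).val, ZMod.val_lt _⟩ (List.mem_finRange _)
    ⟨(f (Pi.single 3 1)).val, ZMod.val_lt _⟩ (List.mem_finRange _)
  exact ⟨x, by rw [hf]; exact hx⟩

lemma M₀_E : M₀.E = Set.univ := rfl

lemma M₀_rk (X : Set (Fin 19)) : rk M₀ X = Module.finrank (ZMod 7) (Submodule.span (ZMod 7) (P '' X)) :=
  rk_vec P X

lemma M₀_representable : IsRepresentable 7 M₀ :=
  ⟨ZMod 7, inferInstance, inferInstance, ZMod.card 7, 4, P, fun _ _ => Iff.rfl⟩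

lemma indep_pair {i j : Fin 19} (hij : i ≠ j) : LinearIndepOn (ZMod 7) P {i, j} := by
  have h1 : LinearIndepOn (ZMod 7) P {i} := LinearIndepOn.singleton (P_ne i)
  have h2 : P j ∉ Submodule.span (ZMod 7) (P '' {i}) := by
    intro h
    rw [Set.image_singleton, Submodule.mem_span_singleton] at h
    obtain ⟨a, ha⟩ := h
    apply S_ne hij
    rw [← ha, map_smul, T_left, smul_zero]
  have := h1.insert h2
  rwa [Set.pair_comm]

lemma M₀_simple : IsSimple M₀ := by
  intro e _ f _
  by_cases h : e = f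
  · subst h
    show LinearIndepOn (ZMod 7) P {e, e}
    rw [Set.pair_eq_singleton]
    exact LinearIndepOn.singleton (P_ne e)
  · exact indep_pair h

/-- each nonempty set has a functional vanishing exactly on its closure -/
lemma exists_functional (C : Set (Fin 19)) (hC : C.Nonempty) :
    ∃ f : Module.Dual (ZMod 7) (Fin 4 → ZMod 7), (∀ c ∈ C, f (P c) = 0) ∧
      ∀ x, f (P x) = 0 → P x ∈ Submodule.span (ZMod 7) (P '' C) := by
  obtain ⟨b, hbC, hb, hbi, hsp⟩ := exists_basis (F := ZMod 7) P C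
  have hcard : b.ncard = Module.finrank (ZMod 7) (Submodule.span (ZMod 7) (P '' C)) := by
    rw [← hsp]
    exact (Pool.Agent.Lib.Pe1005d.finrank_span_image_of_indep P hbi (Set.toFinite b)).symm
  -- small rank : the table
  have key : ∀ i j : Fin 19, Submodule.span (ZMod 7) {P i, P j} =
      Submodule.span (ZMod 7) (P '' C) → ∃ f : Module.Dual (ZMod 7) (Fin 4 → ZMod 7),
        (∀ c ∈ C, f (P c) = 0) ∧
        ∀ x, f (P x) = 0 → P x ∈ Submodule.span (ZMod 7) (P '' C) := by
    intro i j hij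
    refine ⟨dotL (Tf i j), ?_, ?_⟩
    · intro c hc
      have h1 : P c ∈ Submodule.span (ZMod 7) {P i, P j} := by
        rw [hij]; exact Submodule.subset_span ⟨c, hc, rfl⟩
      rw [Submodule.mem_span_pair] at h1
      obtain ⟨a, b, hab⟩ := h1
      rw [← hab, map_add, map_smul, map_smul, T_left, T_right]
      simp
    · intro x hx
      rw [← hij]
      exact T_span i j x hx
  have hle4 : Module.finrank (ZMod 7) (Submodule.span (ZMod 7) (P '' C)) ≤ 4 := by
    have := Submodule.finrank_le (Submodule.span (ZMod 7) (P '' C))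
    rwa [Module.finrank_fin_fun] at this
  rcases Nat.lt_or_ge b.ncard 1 with h0 | h0
  · -- rank zero is impossible
    exfalso
    have hb0 : b = ∅ := by
      rw [← Set.ncard_eq_zero (Set.toFinite b)]; omega
    obtain ⟨c, hc⟩ := hC
    have : P c ∈ Submodule.span (ZMod 7) (P '' b) := by
      rw [hsp]; exact Submodule.subset_span ⟨c, hc, rfl⟩
    rw [hb0, Set.image_empty, Submodule.span_empty, Submodule.mem_bot] at this
    exact P_ne c this
  rcases Nat.lt_or_ge b.ncard 2 with h1 | h1
  · obtain ⟨i, hi⟩ := Set.ncard_eq_one.1 (show b.ncard = 1 by omega)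
    apply key i i
    rw [← hsp, hi, Set.image_singleton, Set.pair_eq_singleton]
  rcases Nat.lt_or_ge b.ncard 3 with h2 | h2
  · obtain ⟨i, j, _, hi⟩ := Set.ncard_eq_two.1 (show b.ncard = 2 by omega)
    apply key i j
    rw [← hsp, hi, Set.image_pair]
  rcases Nat.lt_or_ge b.ncard 4 with h3 | h3
  · -- hyperplane
    set W := Submodule.span (ZMod 7) (P '' C) with hW
    have hWr : Module.finrank (ZMod 7) W = 3 := by omega
    have hWt : W < ⊤ := by
      rw [lt_top_iff_ne_top]
      intro h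
      rw [h, finrank_top, Module.finrank_fin_fun] at hWr
      omega
    obtain ⟨f, hf, hfW⟩ := Submodule.exists_le_ker_of_lt_top W hWt
    refine ⟨f, fun c hc => hfW (Submodule.subset_span ⟨c, hc, rfl⟩), ?_⟩
    intro x hx
    have hker : Module.finrank (ZMod 7) (LinearMap.ker f) ≤ 3 := by
      have h1 := LinearMap.finrank_range_add_finrank_ker f
      rw [Module.finrank_fin_fun] at h1
      have h2 : 0 < Module.finrank (ZMod 7) (LinearMap.range f) := by
        rw [Module.finrank_pos_iff_of_free (ZMod 7)]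
        rw [Submodule.nontrivial_iff_ne_bot]
        intro h
        rw [LinearMap.range_eq_bot] at h
        exact hf h
      omega
    have heq : W = LinearMap.ker f := by
      apply Submodule.eq_of_le_of_finrank_le hfW
      omega
    rw [heq]
    exact hx
  · -- everything
    refine ⟨0, fun _ _ => rfl, fun x _ => ?_⟩
    have htop : Submodule.span (ZMod 7) (P '' C) = ⊤ := by
      apply Submodule.eq_top_of_finrank_eq
      rw [Module.finrank_fin_fun]
      omega
    rw [htop]
    trivial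

/-- minors with a suitable functional have critical exponent at most one -/
lemma critLE_of_functional (C D : Set (Fin 19)) (f : Module.Dual (ZMod 7) (Fin 4 → ZMod 7))
    (h1 : ∀ c ∈ C, f (P c) = 0) (h2 : ∀ e ∈ (M₀ ／ C ＼ D).E, f (P e) ≠ 0) :
    CritExpLE 7 1 (M₀ ／ C ＼ D) := by
  refine ⟨1, le_refl _, ?_⟩
  have h := critical_minor (F := ZMod 7) P C D
  have hfin : Finite (Module.Dual (ZMod 7) (Fin 4 → ZMod 7)) := Module.finite_of_finite (ZMod 7)
  have hpos : (0 : ℤ) < (Nat.card {f : Module.Dual (ZMod 7) (Fin 4 → ZMod 7) //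
      (∀ c ∈ C, f (P c) = 0) ∧ ∀ e ∈ ((vecMatroid (ZMod 7) P) ／ C ＼ D).E, ¬ f (P e) = 0} : ℤ) := by
    have : Nonempty {f : Module.Dual (ZMod 7) (Fin 4 → ZMod 7) //
      (∀ c ∈ C, f (P c) = 0) ∧ ∀ e ∈ ((vecMatroid (ZMod 7) P) ／ C ＼ D).E, ¬ f (P e) = 0} :=
      ⟨⟨f, h1, h2⟩⟩
    exact_mod_cast Nat.card_pos
  rw [h] at hpos
  have h3 := pos_of_mul_pos_right hpos (by positivity)
  rw [ZMod.card] at h3
  simpa [M₀] using h3

open Classical in
lemma charPoly_eval_one {α : Type} [Fintype α] (M : Matroid α) (hE : M.E.Nonempty) :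
    (charPoly M).eval 1 = 0 := by
  rw [charPoly, Polynomial.eval_finsetSum]
  have h1 : ∀ X ∈ (Finset.univ : Finset (Finset α)).filter
      (fun X : Finset α => (X : Set α) ⊆ M.E),
      Polynomial.eval 1 ((-1 : Polynomial ℤ) ^ X.card *
        Polynomial.X ^ (rk M M.E - rk M (X : Set α))) = (-1) ^ X.card := by
    intro X _
    simp
  rw [Finset.sum_congr rfl h1]
  have h2 : (Finset.univ : Finset (Finset α)).filter
      (fun X : Finset α => (X : Set α) ⊆ M.E) = M.E.toFinset.powerset := by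
    ext X
    simp only [Finset.mem_powerset, Finset.mem_filter, Finset.mem_univ, true_and]
    constructor
    · intro h x hx
      simpa using h hx
    · intro h x hx
      simpa using h hx
  rw [h2, Finset.sum_powerset_neg_one_pow_card, if_neg]
  intro h
  obtain ⟨x, hx⟩ := hE
  have : x ∈ M.E.toFinset := by simpa using hx
  rw [h] at this
  simp at this

lemma M₀_not_crit : ¬ CritExpLE 7 1 M₀ := by
  rintro ⟨c, hc, hpos⟩
  have hM : M₀ = (vecMatroid (ZMod 7) P) ／ (∅ : Set (Fin 19)) ＼ (∅ : Set (Fin 19)) := by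
    rw [Matroid.contract_empty, Matroid.delete_empty]; rfl
  interval_cases c
  · -- evaluation at one
    rw [pow_zero, charPoly_eval_one M₀ ⟨0, Set.mem_univ _⟩] at hpos
    exact lt_irrefl _ hpos
  · have h := critical_minor (F := ZMod 7) P ∅ ∅
    have h0 : Nat.card {f : Module.Dual (ZMod 7) (Fin 4 → ZMod 7) //
      (∀ c ∈ (∅ : Set (Fin 19)), f (P c) = 0) ∧
      ∀ e ∈ ((vecMatroid (ZMod 7) P) ／ (∅ : Set (Fin 19)) ＼ (∅ : Set (Fin 19))).E, ¬ f (P e) = 0} = 0 := by
      rw [Nat.card_eq_zero]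
      left
      refine ⟨?_⟩
      rintro ⟨f, _, hf⟩
      obtain ⟨x, hx⟩ := no_fun f
      refine hf x ?_ hx
      rw [← hM]
      exact Set.mem_univ x
    rw [h0, ← hM, ZMod.card] at h
    have h3 : (charPoly M₀).eval (7 : ℤ) = 0 := by
      have h4 := h.symm
      rcases mul_eq_zero.1 h4 with h5 | h5
      · exfalso
        exact absurd h5 (by positivity)
      · exact_mod_cast h5
    rw [pow_one] at hpos
    have h6 : ((7 : ℕ) : ℤ) = 7 := rfl
    rw [h6, h3] at hpos
    exact lt_irrefl _ hpos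

lemma M₀_minors (N : Matroid (Fin 19)) (hN : N <m M₀) (hl : N.Loopless) : CritExpLE 7 1 N := by
  obtain ⟨C, D, hC, hD, hCD, rfl⟩ := hN.isMinor.exists_eq_contract_delete_disjoint
  rcases C.eq_empty_or_nonempty with rfl | hCne
  · -- pure deletion
    rcases D.eq_empty_or_nonempty with rfl | ⟨d, hd⟩
    · exfalso
      rw [Matroid.contract_empty, Matroid.delete_empty] at hN
      exact hN.2 Matroid.IsMinor.refl
    · apply critLE_of_functional ∅ D (dotL (Tf d d))
      · intro c hc; exact absurd hc (Set.notMem_empty c)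
      · intro e he
        have hed : e ∉ D := he.2
        exact S_ne (fun h => hed (h ▸ hd))
  · obtain ⟨f, hf1, hf2⟩ := exists_functional C hCne
    apply critLE_of_functional C D f hf1
    intro e he hfe
    have h1 : e ∈ M₀.closure C := (vec_mem_closure P).2 (hf2 e hfe)
    have h2 : e ∈ (M₀ ／ C).loops := by
      rw [Matroid.contract_loops_eq]
      exact ⟨h1, he.1.2⟩
    have h3 : e ∈ (M₀ ／ C ＼ D).loops := by
      rw [Matroid.delete_loops_eq]
      exact ⟨h2, he.2⟩
    rw [hl.loops_eq_empty] at h3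
    exact h3

lemma M₀_tangential : IsTangentialBlock 7 1 M₀ :=
  ⟨M₀_representable, M₀_simple, M₀_not_crit, M₀_minors⟩

/-- the modular copoint -/
def H₀ : Set (Fin 19) := {i | P i 0 = 0}

lemma M₀_flat_iff {X : Set (Fin 19)} :
    M₀.IsFlat X ↔ ∀ e, P e ∈ Submodule.span (ZMod 7) (P '' X) → e ∈ X :=
  vec_isFlat_iff P

lemma span_H₀_le (S : Set (Fin 19)) (hS : S ⊆ H₀) (v : Fin 4 → ZMod 7)
    (hv : v ∈ Submodule.span (ZMod 7) (P '' S)) : v 0 = 0 := by
  have h : Submodule.span (ZMod 7) (P '' S) ≤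
      LinearMap.ker (LinearMap.proj 0 : (Fin 4 → ZMod 7) →ₗ[ZMod 7] ZMod 7) := by
    rw [Submodule.span_le]
    rintro _ ⟨s, hs, rfl⟩
    exact hS hs
  exact h hv

lemma H₀_flat : M₀.IsFlat H₀ := by
  rw [M₀_flat_iff]
  intro e he
  exact span_H₀_le H₀ (le_refl _) _ he

lemma rk_flat_of_mem {Y : Set (Fin 19)} (hY : M₀.IsFlat Y) {p : Fin 19} (hp : p ∈ Y)
    (hp0 : P p 0 ≠ 0) : rk M₀ Y = rk M₀ (H₀ ∩ Y) + 1 := by
  have hpn : p ∉ M₀.closure (H₀ ∩ Y) := by
    intro h
    exact hp0 (span_H₀_le (H₀ ∩ Y) Set.inter_subset_left _ ((vec_mem_closure P).1 h))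
  have h1 : M₀.eRk (insert p (H₀ ∩ Y)) = M₀.eRk (H₀ ∩ Y) + 1 :=
    M₀.eRk_insert_eq_add_one ⟨Set.mem_univ _, hpn⟩
  have h2 : Submodule.span (ZMod 7) (P '' Y) =
      Submodule.span (ZMod 7) (P '' (insert p (H₀ ∩ Y))) := by
    apply le_antisymm
    · rw [Submodule.span_le]
      rintro _ ⟨y, hy, rfl⟩
      show P y ∈ Submodule.span (ZMod 7) (P '' (insert p (H₀ ∩ Y)))
      by_cases hy0 : P y 0 = 0
      · exact Submodule.subset_span ⟨y, Or.inr ⟨hy0, hy⟩, rfl⟩
      · by_cases hyp : y = p
        · rw [hyp]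
          exact Submodule.subset_span ⟨p, Or.inl rfl, rfl⟩
        · obtain ⟨h, hh, c, hc⟩ := A_diff hyp hy0 hp0
          have hpm : P p ∈ Submodule.span (ZMod 7) (P '' (insert p (H₀ ∩ Y))) :=
            Submodule.subset_span ⟨p, Or.inl rfl, rfl⟩
          have hPy : P y = P p + c • P h := by rw [← hc]; abel
          by_cases hc0 : c = 0
          · rw [hPy, hc0, zero_smul, add_zero]; exact hpm
          · have hhY : h ∈ Y := by
              apply M₀_flat_iff.1 hY
              have : P h = c⁻¹ • (P y - P p) := by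
                rw [hc, smul_smul, inv_mul_cancel₀ hc0, one_smul]
              rw [this]
              apply Submodule.smul_mem
              apply Submodule.sub_mem
              · exact Submodule.subset_span ⟨y, hy, rfl⟩
              · exact Submodule.subset_span ⟨p, hp, rfl⟩
            rw [hPy]
            apply Submodule.add_mem _ hpm
            apply Submodule.smul_mem
            exact Submodule.subset_span ⟨h, Or.inr ⟨hh, hhY⟩, rfl⟩
    · apply Submodule.span_mono
      apply Set.image_mono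
      intro x hx
      rcases hx with rfl | hx
      · exact hp
      · exact hx.2
  have h3 : rk M₀ Y = rk M₀ (insert p (H₀ ∩ Y)) := by
    rw [M₀_rk, M₀_rk, h2]
  rw [h3]
  have h4 : rk M₀ (insert p (H₀ ∩ Y)) = (M₀.eRk (insert p (H₀ ∩ Y))).toNat := rfl
  have h5 : M₀.eRk (H₀ ∩ Y) = (Module.finrank (ZMod 7) (Submodule.span (ZMod 7) (P '' (H₀ ∩ Y))) : ℕ) :=
    Pool.Agent.Lib.Pe1005d.vec_eRk P (H₀ ∩ Y)
  rw [h4, h1, rk, h5]
  rfl

lemma rk_mono {X Y : Set (Fin 19)} (h : X ⊆ Y) : rk M₀ X ≤ rk M₀ Y := by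
  rw [M₀_rk, M₀_rk]
  exact Submodule.finrank_mono (Submodule.span_mono (Set.image_mono h))

lemma rk_closure (X : Set (Fin 19)) : rk M₀ (M₀.closure X) = rk M₀ X := by
  rw [rk, rk, Matroid.eRk_closure_eq]

lemma H₀_modular : IsModularFlat M₀ H₀ := by
  refine ⟨H₀_flat, ?_⟩
  intro Y hY
  by_cases hYH : Y ⊆ H₀
  · rw [Set.union_eq_self_of_subset_right hYH, H₀_flat.closure, Set.inter_eq_self_of_subset_right hYH]
  · obtain ⟨p, hp, hpH⟩ := Set.not_subset.1 hYH
    have hp0 : P p 0 ≠ 0 := hpH
    have h1 := rk_flat_of_mem hY hp hp0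
    have hZ : M₀.IsFlat (M₀.closure (H₀ ∪ Y)) := M₀.isFlat_closure _
    have hsub : H₀ ∪ Y ⊆ M₀.closure (H₀ ∪ Y) := M₀.subset_closure _ (Set.subset_univ _)
    have h2 := rk_flat_of_mem hZ (hsub (Or.inr hp)) hp0
    have h3 : H₀ ∩ M₀.closure (H₀ ∪ Y) = H₀ :=
      Set.inter_eq_self_of_subset_left (fun x hx => hsub (Or.inl hx))
    rw [h3] at h2
    omega

lemma rk_univ : rk M₀ M₀.E = 4 := by
  rw [M₀_rk, M₀_E]
  have h : Submodule.span (ZMod 7) (P '' Set.univ) = ⊤ := by
    rw [eq_top_iff]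
    intro v _
    have hm : ∀ i : Fin 19, P i ∈ Submodule.span (ZMod 7) (P '' Set.univ) :=
      fun i => Submodule.subset_span ⟨i, Set.mem_univ i, rfl⟩
    have hv : v = v 0 • P 0 + (v 1 - v 2 - 4 * v 3) • P 7 + v 2 • P 12 + (4 * v 3) • P 8 := by
      have h8 : (4 : ZMod 7) * 2 = 1 := by decide
      ext k
      fin_cases k
      · simp [P]
      · simp [P]; ring
      · simp [P]
      · simp only [P, Pi.add_apply, Pi.smul_apply, smul_eq_mul]
        simp
        linear_combination (- v 3) * h8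
    rw [hv]
    exact Submodule.add_mem _ (Submodule.add_mem _ (Submodule.add_mem _
      (Submodule.smul_mem _ _ (hm 0)) (Submodule.smul_mem _ _ (hm 7)))
      (Submodule.smul_mem _ _ (hm 12))) (Submodule.smul_mem _ _ (hm 8))
  rw [h, finrank_top, Module.finrank_fin_fun]

lemma M₀_modularCopoint : HasModularCopoint M₀ := by
  refine ⟨H₀, H₀_modular, ?_⟩
  have h := rk_flat_of_mem (Y := M₀.E) M₀.ground_isFlat (p := 0) (Set.mem_univ _) (by decide)
  rw [h, M₀_E, Set.inter_univ]

lemma rk_lt_of_flat_ssubset {X Y : Set (Fin 19)} (hX : M₀.IsFlat X) (h : X ⊂ Y) :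
    rk M₀ X < rk M₀ Y := by
  obtain ⟨y, hy, hyX⟩ := Set.exists_of_ssubset h
  have h1 : y ∉ M₀.closure X := by rw [hX.closure]; exact hyX
  have h2 : M₀.eRk (insert y X) = M₀.eRk X + 1 :=
    M₀.eRk_insert_eq_add_one ⟨Set.mem_univ _, h1⟩
  have h3 : rk M₀ (insert y X) ≤ rk M₀ Y := rk_mono (Set.insert_subset hy h.subset)
  have h4 : rk M₀ (insert y X) = rk M₀ X + 1 := by
    have h5 : M₀.eRk X = (Module.finrank (ZMod 7) (Submodule.span (ZMod 7) (P '' X)) : ℕ) :=
      Pool.Agent.Lib.Pe1005d.vec_eRk P X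
    rw [rk, rk, h2, h5]
    rfl
  omega

lemma no_modular_line {L : Set (Fin 19)} (hL : IsModularFlat M₀ L) (hr : rk M₀ L = 2) : False := by
  obtain ⟨b, hbL, hb, hbi, hsp⟩ := exists_basis (F := ZMod 7) P L
  have hcard : b.ncard = 2 := by
    rw [← hr, M₀_rk, ← hsp]
    exact (Pool.Agent.Lib.Pe1005d.finrank_span_image_of_indep P hbi (Set.toFinite b)).symm
  obtain ⟨i, j, hij, hbij⟩ := Set.ncard_eq_two.1 hcard
  obtain ⟨g, a, b', c, ga, gb, gc, hab, hc, hg⟩ := G_spec hij
  have hT : ∀ x, P x ∈ Submodule.span (ZMod 7) (P '' L) → dotL (Tf i j) (P x) = 0 := by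
    intro x hx
    rw [← hsp, hbij, Set.image_pair, Submodule.mem_span_pair] at hx
    obtain ⟨u, v, huv⟩ := hx
    rw [← huv, map_add, map_smul, map_smul, T_left, T_right]
    simp
  set Y : Set (Fin 19) := {x | g (P x) = 0} with hYdef
  have hYflat : M₀.IsFlat Y := by
    rw [M₀_flat_iff]
    intro e he
    have h : Submodule.span (ZMod 7) (P '' Y) ≤ LinearMap.ker g := by
      rw [Submodule.span_le]
      rintro _ ⟨s, hs, rfl⟩
      exact hs
    exact h he
  have hYr : 3 ≤ rk M₀ Y := by
    have h1 : LinearIndepOn (ZMod 7) P {a, b'} := indep_pair hab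
    have h2 : P c ∉ Submodule.span (ZMod 7) (P '' {a, b'}) := by
      intro h
      rw [Set.image_pair, Submodule.mem_span_pair] at h
      obtain ⟨u, v, huv⟩ := h
      apply hc
      rw [← huv, map_add, map_smul, map_smul, T_left, T_right]
      simp
    have h3 := h1.insert h2
    have hcn : c ∉ ({a, b'} : Set (Fin 19)) := by
      intro h
      exact h2 (Submodule.subset_span ⟨c, h, rfl⟩)
    have h4 : rk M₀ (insert c {a, b'}) = 3 := by
      rw [M₀_rk, Pool.Agent.Lib.Pe1005d.finrank_span_image_of_indep P h3 (Set.toFinite _),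
        Set.ncard_insert_of_notMem hcn (Set.toFinite _), Set.ncard_pair hab]
    rw [← h4]
    apply rk_mono
    intro x hx
    rcases hx with rfl | rfl | rfl
    · exact gc
    · exact ga
    · exact gb
  have hdis : L ∩ Y = ∅ := by
    rw [Set.eq_empty_iff_forall_notMem]
    rintro x ⟨hxL, hxY⟩
    exact hg x (hT x (Submodule.subset_span ⟨x, hxL, rfl⟩)) hxY
  have hmod := hL.2 Y hYflat
  have hle : rk M₀ (M₀.closure (L ∪ Y)) ≤ 4 := by
    rw [← rk_univ]
    exact rk_mono (Set.subset_univ _)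
  have h0 : rk M₀ (L ∩ Y) = 0 := by
    rw [hdis, rk, Matroid.eRk_empty]; rfl
  omega

lemma M₀_not_supersolvable : ¬ IsSupersolvable M₀ := by
  rintro ⟨X, hX, hmod⟩
  have h4 := rk_univ
  have hlt : ∀ i j : Fin (rk M₀ M₀.E + 1), i < j → rk M₀ (X i) < rk M₀ (X j) :=
    fun i j hij => rk_lt_of_flat_ssubset (hmod i).1 (hX hij)
  have e0 : 0 < rk M₀ M₀.E + 1 := by omega
  have e1 : 1 < rk M₀ M₀.E + 1 := by omega
  have e2 : 2 < rk M₀ M₀.E + 1 := by omega
  have e3 : 3 < rk M₀ M₀.E + 1 := by omega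
  have e4 : 4 < rk M₀ M₀.E + 1 := by omega
  have l01 := hlt ⟨0, e0⟩ ⟨1, e1⟩ (by simp [Fin.lt_def])
  have l12 := hlt ⟨1, e1⟩ ⟨2, e2⟩ (by simp [Fin.lt_def])
  have l23 := hlt ⟨2, e2⟩ ⟨3, e3⟩ (by simp [Fin.lt_def])
  have l34 := hlt ⟨3, e3⟩ ⟨4, e4⟩ (by simp [Fin.lt_def])
  have hle : rk M₀ (X ⟨4, e4⟩) ≤ rk M₀ M₀.E := rk_mono (Set.subset_univ _)
  exact no_modular_line (hmod ⟨2, e2⟩) (by omega)

end example_

/-- There is a tangential `1`-block over `GF(7)`, of rank `4` with `19` points, which has a modular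
copoint but is not supersolvable. -/
theorem result : ∃ M : Matroid (Fin 19), M.E = Set.univ ∧ rk M M.E = 4 ∧
    IsTangentialBlock 7 1 M ∧ HasModularCopoint M ∧ ¬ IsSupersolvable M :=
  ⟨M₀, rfl, rk_univ, M₀_tangential, M₀_modularCopoint, M₀_not_supersolvable⟩

end Pool.Agent.Results.MP_e1005d_co.NotSupersolvable
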